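import Pool.Agent.W_aaa0df_h65.BX

set_option autoImplicit false

namespace Pool.Agent.Results.MP_aaa0df_nt.ExceptionalTwists

open MPaaa0df Twist Real

/-- Write `B(d₀, E)` for the set of negative fundamental discriminants `d` with `d d₀ = e k²` for
integers `1 ≤ e ≤ E`, `k` (so `ℚ(√d)` is the twist of `ℚ(√d₀)` by `√e`). Let `0 < κ < 2` and `ε > 0`.
There are `C, D` such that for every negative fundamental discriminant `d₀` with `|d₀| ≥ D` and every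
`1 ≤ E ≤ exp((log|d₀|)^(1/8))`, the number of `d ∈ B(d₀, E)` with `N(d) < (log|d|)^κ` is at most
`(C (1 + x))^(6 + 4x)`, `x = log E/loglog|d₀|` (so `O_K(1)` for `E = (log|d₀|)^K`), and at most `1` if
`E ≤ (log|d₀|)^(4 - 2κ - ε)` and (`κ ≥ 1` or `d₀` has at most `(log|d₀|)^κ` prime factors). -/
theorem result (κ ε : ℝ) (hκ : 0 < κ) (hκ2 : κ < 2) (hε : 0 < ε) :
    ∃ C D : ℝ, ∀ d₀ : ℤ, d₀ < 0 → Fund d₀ → D ≤ |(d₀ : ℝ)| → ∀ E : ℝ, 1 ≤ E →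
      log E ≤ log |(d₀ : ℝ)| ^ (1 / 8 : ℝ) →
      {d : ℤ | Near d₀ E d ∧ (N d : ℝ) < log |(d : ℝ)| ^ κ}.Finite ∧
      (Set.ncard {d : ℤ | Near d₀ E d ∧ (N d : ℝ) < log |(d : ℝ)| ^ κ} : ℝ) ≤
        (C * (1 + log E / log (log |(d₀ : ℝ)|))) ^ (6 + 4 * log E / log (log |(d₀ : ℝ)|)) ∧
      (E ≤ log |(d₀ : ℝ)| ^ (2 * (2 - κ) - ε) →
        (1 ≤ κ ∨ (d₀.natAbs.primeFactors.card : ℝ) ≤ log |(d₀ : ℝ)| ^ κ) →
        Set.ncard {d : ℤ | Near d₀ E d ∧ (N d : ℝ) < log |(d : ℝ)| ^ κ} ≤ 1) :=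
  TwV.exceptional_twists κ ε hκ hκ2 hε

end Pool.Agent.Results.MP_aaa0df_nt.ExceptionalTwists
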