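import Pool.Agent.W_aaa0df_bg.D3

set_option autoImplicit false

namespace Pool.Agent.Results.MP_aaa0df_nt.ManySplitPrimes

open MPaaa0df

/-- `d` is a fundamental discriminant (the number `1` included) -/
def Fund (d : ℤ) : Prop :=
  (d % 4 = 1 ∧ Squarefree d) ∨
  (∃ m : ℤ, d = 4 * m ∧ (m % 4 = 2 ∨ m % 4 = 3) ∧ Squarefree m)

/-- at most one prime factor of `d` exceeds `y` and none exceeds `y²` -/
def Structured (d : ℤ) (y : ℝ) : Prop :=
  (∀ p : ℕ, p.Prime → (p : ℤ) ∣ d → (p : ℝ) ≤ y ^ 2) ∧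
    ∀ p p' : ℕ, p.Prime → p'.Prime → (p : ℤ) ∣ d → (p' : ℤ) ∣ d → y < p → y < p' → p = p'

/-- Let `η > 0` and `A` be real numbers. For every fundamental discriminant `d` with `|d| ≥ D(η, A)`, every
`y ≥ 1` with `y ≥ |d|^(1/4)` or `Structured d y`, and every `x` between `y |d|^η` and `|d|^A` there are
at least `x / (y |d|^η)` primes `p < x` that split in `ℚ(√d)`. -/
theorem result (η A : ℝ) (hη : 0 < η) :
    ∃ D : ℝ, ∀ d : ℤ, Fund d → D ≤ |(d : ℝ)| → ∀ y : ℝ, 1 ≤ y →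
      (|(d : ℝ)| ^ (1 / 4 : ℝ) ≤ y ∨ Structured d y) →
      ∀ x : ℝ, y * |(d : ℝ)| ^ η ≤ x → x ≤ |(d : ℝ)| ^ A →
        x / (y * |(d : ℝ)| ^ η) ≤ splitCount d x :=
  BG.many_split_union η A hη

end Pool.Agent.Results.MP_aaa0df_nt.ManySplitPrimes
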