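import Pool.Agent.W_aaa0df_mp.MP4

set_option autoImplicit false

namespace Pool.Agent.Results.MP_aaa0df_nt.PolynomialFamilies

open MPaaa0df T9 Polynomial

open Classical in
/-- Let `G : ℕ` and `ε, κ, δ, η > 0`. There are constants `C, X₀` such that for all `X ≥ X₀`: let `B` be a
set of at least `(log X)^ε` polynomials `f ∈ ℤ[x]` of degree between `1` and `G`, with coefficients at
most `X` in absolute value, squarefree and pairwise coprime over `ℚ`. Let `A` be a set of pairs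
`(a₁, a₂)`, `a₂ ≠ 0`, of integers at most `X` in absolute value, which represent pairwise different
rational numbers `a₁/a₂`. If for every `(a₁, a₂) ∈ A` there is an integer `s`, `|s| ≤ X`, such that for at
least `η |B|` of the `f ∈ B` the number `D = s a₂^G f(a₁/a₂)` is bad, then
`|A| ≤ C (log X)² (log log X)²`.

`D ≠ 0` is bad (`Bad κ δ X D`) if `4 D = d f²` with an integer `d ≡ 0, 1 mod 4`, `|d| ≥ X^κ` (for instance the
discriminant `d` of `ℚ(√D)`), and the number `N(d)` of split primes below the threshold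
`(log|d|)² (log log|d|)²` of the problem is not within `δ` of one half of the number of all primes below it. -/
theorem result (G : ℕ) (ε κ δ η : ℝ) (hε : 0 < ε) (hκ : 0 < κ) (hδ : 0 < δ) (hη : 0 < η) :
    ∃ C X₀ : ℝ, ∀ X : ℝ, X₀ ≤ X → ∀ (A : Finset (ℤ × ℤ)) (B : Finset ℤ[X]),
      (∀ a ∈ A, |(a.1 : ℝ)| ≤ X ∧ |(a.2 : ℝ)| ≤ X ∧ a.2 ≠ 0) →
      (∀ a ∈ A, ∀ a' ∈ A, a ≠ a' → cr a a' ≠ 0) →
      (∀ f ∈ B, 1 ≤ f.natDegree ∧ f.natDegree ≤ G ∧ (∀ i, |(f.coeff i : ℝ)| ≤ X) ∧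
        Squarefree (f.map (Int.castRingHom ℚ))) →
      (∀ f ∈ B, ∀ g ∈ B, f ≠ g → IsCoprime (f.map (Int.castRingHom ℚ))
        (g.map (Int.castRingHom ℚ))) →
      Real.log X ^ ε ≤ B.card →
      (∀ a ∈ A, ∃ s : ℤ, |(s : ℝ)| ≤ X ∧
        η * B.card ≤ ((B.filter (fun f => Bad κ δ X (s * hm G f a))).card : ℝ)) →
      (A.card : ℝ) ≤ C * (Real.log X ^ 2 * Real.log (Real.log X) ^ 2) :=
  poly_families G ε κ δ η hε hκ hδ hη

end Pool.Agent.Results.MP_aaa0df_nt.PolynomialFamilies
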